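import Mathlib
import Pool.Agent.Q151.Mag.Kernel
import Pool.Agent.Q151.Mag.Dyadic

/-!
# A tractable compact subspace of `L₁[0,1]` on which magnitude is discontinuous
-/

open MeasureTheory Set TopologicalSpace
open Pool.Agent.Q151.Mag

namespace Pool.Agent.Results.MP_17ecd9_gt.Discontinuous

section Defs

/-- the matrix `(e^{-d(a,b)})` of a finite set `A` of points of a metric space -/
noncomputable def simMatrix {M : Type*} [MetricSpace M] (A : Finset M) : Matrix A A ℝ :=
  Matrix.of fun a b => Real.exp (-dist (a : M) (b : M))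

/-- a metric space is positive definite if all these matrices are -/
def PosDefinite (M : Type*) [MetricSpace M] : Prop :=
  ∀ A : Finset M, A.Nonempty → (simMatrix A).PosDef

open Classical in
/-- the magnitude of a finite subset (of a positive definite metric space): the sum of all entries
of the inverse matrix -/
noncomputable def mag {M : Type*} [MetricSpace M] (A : Finset M) : ℝ :=
  ∑ a, ∑ b, (simMatrix A)⁻¹ a b

/-- the magnitude of a subset (of a positive definite metric space): the supremum of the magnitudes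
of its nonempty finite subsets -/
noncomputable def magSet {M : Type*} [MetricSpace M] (K : Set M) : EReal :=
  ⨆ A : {A : Finset M // A.Nonempty ∧ (A : Set M) ⊆ K}, ((mag A.1 : ℝ) : EReal)

/-- tractable metric spaces -/
structure Tractable (M : Type*) [MetricSpace M] : Prop where
  posDefinite : PosDefinite M
  heineBorel : ∀ s : Set M, IsClosed s → Bornology.IsBounded s → IsCompact s
  finite_ball : ∀ (x : M) (r : ℝ), magSet (Metric.closedBall x r) < ⊤

/-- magnitude is continuous on the nonempty finite subsets, in the Hausdorff metric -/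
def MagFinContinuous (M : Type*) [MetricSpace M] : Prop :=
  ∀ A : Finset M, A.Nonempty → ∀ ε > 0, ∃ δ > 0, ∀ B : Finset M, B.Nonempty →
    Metric.hausdorffDist (A : Set M) (B : Set M) < δ → |mag A - mag B| < ε

/-- magnitude is continuous on the nonempty compact subsets, in the Hausdorff metric -/
def MagCmpContinuous (M : Type*) [MetricSpace M] : Prop :=
  Continuous fun K : NonemptyCompacts M => (magSet (K : Set M)).toReal

end Defs

section General

variable {M : Type*} [MetricSpace M]

open Classical in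
lemma mag_eq_of_weight {A : Finset M} (hpd : (simMatrix A).PosDef) (w : A → ℝ)
    (hw : ∀ a : A, ∑ b : A, Real.exp (-dist (a : M) (b : M)) * w b = 1) :
    mag A = ∑ b, w b := by
  have h1 : (simMatrix A).mulVec w = fun _ => 1 := by
    funext a
    rw [← hw a]
    rfl
  have hu : IsUnit (simMatrix A).det := (Matrix.isUnit_iff_isUnit_det _).mp hpd.isUnit
  have h2 : w = (simMatrix A)⁻¹.mulVec (fun _ => 1) := by
    rw [← h1, Matrix.mulVec_mulVec, Matrix.nonsing_inv_mul _ hu, Matrix.one_mulVec]
  unfold mag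
  refine Finset.sum_congr rfl fun a _ => ?_
  rw [h2]
  simp [Matrix.mulVec, dotProduct]

open Classical in
lemma exists_weight {A : Finset M} (hpd : (simMatrix A).PosDef) :
    ∃ w : A → ℝ, (∀ a : A, ∑ b : A, Real.exp (-dist (a : M) (b : M)) * w b = 1) ∧
      mag A = ∑ b, w b := by
  have hu : IsUnit (simMatrix A).det := (Matrix.isUnit_iff_isUnit_det _).mp hpd.isUnit
  refine ⟨(simMatrix A)⁻¹.mulVec (fun _ => 1), ?_, ?_⟩
  · intro a
    have : (simMatrix A).mulVec ((simMatrix A)⁻¹.mulVec (fun _ => 1)) a = 1 := by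
      rw [Matrix.mulVec_mulVec, Matrix.mul_nonsing_inv _ hu, Matrix.one_mulVec]
    exact this
  · unfold mag
    refine Finset.sum_congr rfl fun a _ => ?_
    simp [Matrix.mulVec, dotProduct]

end General

/-- the dyadic indicators -/
noncomputable def f (p : Σ m : ℕ, Fin (2 ^ m)) : L1 := u p.1 (p.2 : ℕ)

/-- the counterexample -/
def T : Set L1 := insert 0 (range f)

lemma phi_self {m : ℕ} (k : Fin (2 ^ m)) : phi m m (k : ℕ) = {k} := by
  ext i
  simp [phi, Fin.ext_iff]

lemma f_eq (m : ℕ) (k : Fin (2 ^ m)) : f ⟨m, k⟩ = v ({k} : Finset (Fin (2 ^ m))) := by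
  unfold f
  simp only
  rw [u_eq_v le_rfl, phi_self]

lemma dist_zero_f (m : ℕ) (k : Fin (2 ^ m)) : dist (f ⟨m, k⟩) 0 = 1 / (2:ℝ) ^ m := by
  rw [f_eq, ← v_empty (N := 2 ^ m), dist_v]
  have h : symmDiff ({k} : Finset (Fin (2 ^ m))) ∅ = {k} := symmDiff_bot _
  rw [h]
  simp

lemma f_tendsto : Filter.Tendsto f Filter.cofinite (nhds 0) := by
  rw [Metric.tendsto_nhds]
  intro ε hε
  obtain ⟨M, hM⟩ := exists_pow_lt_of_lt_one hε (by norm_num : (1/2 : ℝ) < 1)
  rw [Filter.eventually_cofinite]
  refine Set.Finite.subset (Finset.finite_toSet ((Finset.range M).sigma fun m => (Finset.univ : Finset (Fin (2 ^ m))))) ?_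
  rintro ⟨m, k⟩ h
  simp only [Finset.coe_sigma, Set.mem_sigma_iff, Finset.mem_coe, Finset.mem_range, Finset.mem_univ, and_true]
  by_contra hc
  push Not at hc
  apply h
  rw [dist_zero_f]
  calc 1 / (2:ℝ) ^ m = (1/2) ^ m := by rw [one_div, one_div, inv_pow]
    _ ≤ (1/2) ^ M := pow_le_pow_of_le_one (by norm_num) (by norm_num) hc
    _ < ε := hM

lemma T_compact : IsCompact T := f_tendsto.isCompact_insert_range_of_cofinite

/-- each finite subset of `T` consists of indicators of unions of cells of one level -/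
lemma exists_level (A : Finset T) : ∃ (M : ℕ) (φ : A → Finset (Fin (2 ^ M))),
    ∀ a : A, ((a : T) : L1) = v (φ a) := by
  have h1 : ∀ a : T, ∃ m : ℕ, ∀ M, m ≤ M → ∃ S : Finset (Fin (2 ^ M)), (a : L1) = v S := by
    rintro ⟨a, ha⟩
    rcases ha with rfl | ⟨⟨m, k⟩, rfl⟩
    · exact ⟨0, fun M _ => ⟨∅, v_empty.symm⟩⟩
    · exact ⟨m, fun M hM => ⟨_, u_eq_v hM⟩⟩
  choose g hg using h1
  have h2 : ∀ a : A, ∃ S : Finset (Fin (2 ^ (A.sup g))), ((a : T) : L1) = v S :=
    fun a => hg a _ (Finset.le_sup (f := g) a.2)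
  choose φ hφ using h2
  exact ⟨A.sup g, φ, hφ⟩

lemma exp_dist_eq {A : Finset T} {M : ℕ} {φ : A → Finset (Fin (2 ^ M))}
    (h : ∀ a : A, ((a : T) : L1) = v (φ a)) (a b : A) :
    Real.exp (-dist (a : T) (b : T)) =
      Real.exp (-(1 / ((2 ^ M : ℕ) : ℝ))) ^ (symmDiff (φ a) (φ b)).card := by
  rw [Subtype.dist_eq, h a, h b, exp_dist_v]

lemma phi_injective {A : Finset T} {M : ℕ} {φ : A → Finset (Fin (2 ^ M))}
    (h : ∀ a : A, ((a : T) : L1) = v (φ a)) : Function.Injective φ := by
  intro a b hab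
  apply Subtype.ext
  apply Subtype.ext
  rw [h a, h b, hab]

lemma q_lt_one {N : ℕ} (hN : 0 < N) : Real.exp (-(1 / (N : ℝ))) < 1 := by
  rw [Real.exp_lt_one_iff]
  have : (0:ℝ) < N := by exact_mod_cast hN
  have : 0 < 1 / (N : ℝ) := by positivity
  linarith

lemma T_posDefinite : PosDefinite T := by
  classical
  intro A _
  obtain ⟨M, φ, h⟩ := exists_level A
  refine Matrix.PosDef.of_dotProduct_mulVec_pos ?_ ?_
  · ext a b
    simp [simMatrix, Matrix.conjTranspose_apply, dist_comm]
  · intro c hc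
    have h1 := quad_pos φ c (Real.exp_pos (-(1 / ((2 ^ M : ℕ) : ℝ)))).le (q_lt_one (by positivity))
      (phi_injective h) hc
    have h2 : star c ⬝ᵥ (simMatrix A).mulVec c = ∑ a, ∑ b, c a * c b *
        Real.exp (-(1 / ((2 ^ M : ℕ) : ℝ))) ^ (symmDiff (φ a) (φ b)).card := by
      simp only [dotProduct, Matrix.mulVec, simMatrix, Matrix.of_apply, star_trivial]
      refine Finset.sum_congr rfl fun a _ => ?_
      rw [Finset.mul_sum]
      refine Finset.sum_congr rfl fun b _ => ?_
      rw [exp_dist_eq h]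
      ring
    rw [h2]
    exact h1

lemma amgm {N : ℕ} (hN : 0 < N) :
    Real.exp (-(1/2)) ≤ ((1 + Real.exp (-(1 / (N : ℝ)))) / 2) ^ N := by
  have hN' : (0:ℝ) < N := by exact_mod_cast hN
  have h1 : Real.exp (-(1/2)) = Real.exp (-(1 / (2 * (N : ℝ)))) ^ N := by
    rw [← Real.exp_nat_mul]
    congr 1
    field_simp
  rw [h1]
  refine pow_le_pow_left₀ (Real.exp_pos _).le ?_ N
  have h2 : Real.exp (-(1 / (N : ℝ))) = Real.exp (-(1 / (2 * (N : ℝ)))) ^ 2 := by
    rw [← Real.exp_nat_mul]
    congr 1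
    push_cast
    field_simp
  rw [h2]
  nlinarith [sq_nonneg (Real.exp (-(1 / (2 * (N : ℝ)))) - 1)]

lemma mag_le (A : Finset T) (hA : A.Nonempty) : mag A ≤ Real.exp (1/2) := by
  classical
  obtain ⟨M, φ, h⟩ := exists_level A
  obtain ⟨w, hw, hmag⟩ := exists_weight (T_posDefinite A hA)
  have h1 := quad_lower φ w (Real.exp_pos (-(1 / ((2 ^ M : ℕ) : ℝ)))).le
    (q_lt_one (N := 2 ^ M) (by positivity)).le
  have h2 : ∑ a, ∑ b, w a * w b * Real.exp (-(1 / ((2 ^ M : ℕ) : ℝ))) ^
      (symmDiff (φ a) (φ b)).card = mag A := by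
    rw [hmag]
    refine Finset.sum_congr rfl fun a _ => ?_
    have : w a = w a * ∑ b : A, Real.exp (-dist (a : T) (b : T)) * w b := by rw [hw a, mul_one]
    conv_rhs => rw [this]
    rw [Finset.mul_sum]
    refine Finset.sum_congr rfl fun b _ => ?_
    rw [exp_dist_eq h]
    ring
  rw [h2, ← hmag, Fintype.card_fin] at h1
  by_cases hm : mag A ≤ 0
  · exact hm.trans (Real.exp_pos _).le
  · push Not at hm
    have h3 := amgm (N := 2 ^ M) (by positivity)
    have h4 : Real.exp (-(1/2)) * mag A ^ 2 ≤ mag A :=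
      (mul_le_mul_of_nonneg_right h3 (sq_nonneg _)).trans h1
    have h5 : Real.exp (-(1/2)) * mag A ≤ 1 := by
      have : Real.exp (-(1/2)) * mag A * mag A ≤ 1 * mag A := by
        calc _ = Real.exp (-(1/2)) * mag A ^ 2 := by ring
          _ ≤ mag A := h4
          _ = 1 * mag A := (one_mul _).symm
      exact le_of_mul_le_mul_right this hm
    calc mag A = Real.exp (1/2) * (Real.exp (-(1/2)) * mag A) := by
          rw [← mul_assoc, ← Real.exp_add]; simp
      _ ≤ Real.exp (1/2) * 1 := mul_le_mul_of_nonneg_left h5 (Real.exp_pos _).le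
      _ = _ := mul_one _

lemma magSet_le (K : Set T) : magSet K ≤ (Real.exp (1/2) : ℝ) := by
  unfold magSet
  refine iSup_le fun A => ?_
  exact_mod_cast mag_le A.1 A.2.1

lemma le_magSet {K : Set T} {A : Finset T} (hA : A.Nonempty) (h : (A : Set T) ⊆ K) :
    ((mag A : ℝ) : EReal) ≤ magSet K := by
  unfold magSet
  exact le_iSup (fun A : {A : Finset T // A.Nonempty ∧ (A : Set T) ⊆ K} => ((mag A.1 : ℝ) : EReal))
    ⟨A, hA, h⟩

lemma T_tractable : Tractable T := by
  have : CompactSpace T := isCompact_iff_compactSpace.mp T_compact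
  exact ⟨T_posDefinite, fun s hs _ => hs.isCompact,
    fun x r => (magSet_le _).trans_lt (EReal.coe_lt_top _)⟩

/-- the zero of `T` -/
noncomputable def z : T := ⟨0, mem_insert _ _⟩

/-- the dyadic indicators as points of `T` -/
noncomputable def g (m : ℕ) (k : Fin (2 ^ m)) : T := ⟨f ⟨m, k⟩, mem_insert_of_mem _ ⟨_, rfl⟩⟩

open Classical in
/-- the leaves -/
noncomputable def leaves (m : ℕ) : Finset T := Finset.univ.image (g m)

open Classical in
/-- the stars -/
noncomputable def star' (m : ℕ) : Finset T := insert z (leaves m)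

lemma dist_g_z (m : ℕ) (k : Fin (2 ^ m)) : dist (g m k) z = 1 / (2:ℝ) ^ m := by
  rw [Subtype.dist_eq]; exact dist_zero_f m k

lemma dist_g_g (m : ℕ) (k l : Fin (2 ^ m)) (h : k ≠ l) : dist (g m k) (g m l) = 2 / (2:ℝ) ^ m := by
  rw [Subtype.dist_eq]
  simp only [g]
  rw [f_eq, f_eq, dist_v]
  have : symmDiff ({k} : Finset (Fin (2 ^ m))) {l} = {k, l} := by
    ext i
    simp only [Finset.mem_symmDiff, Finset.mem_singleton, Finset.mem_insert]
    constructor
    · tauto
    · rintro (rfl | rfl)
      · exact Or.inl ⟨rfl, h⟩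
      · exact Or.inr ⟨rfl, fun h' => h h'.symm⟩
  rw [this, Finset.card_pair h]
  push_cast
  rfl

lemma g_injective (m : ℕ) : Function.Injective (g m) := by
  intro k l h
  by_contra hc
  have := dist_g_g m k l hc
  rw [h, dist_self] at this
  have h2 : (0:ℝ) < 2 / 2 ^ m := by positivity
  linarith

lemma z_notMem (m : ℕ) : z ∉ leaves m := by
  classical
  unfold leaves
  simp only [Finset.mem_image, Finset.mem_univ, true_and, not_exists]
  intro k hk
  have := dist_g_z m k
  rw [hk, dist_self] at this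
  have h2 : (0:ℝ) < 1 / 2 ^ m := by positivity
  linarith

lemma sum_star (m : ℕ) (F : T → ℝ) :
    ∑ b : star' m, F b = F z + ∑ k : Fin (2 ^ m), F (g m k) := by
  classical
  rw [Finset.sum_coe_sort (star' m) F, star', Finset.sum_insert (z_notMem m), leaves,
    Finset.sum_image fun k _ l _ h => g_injective m h]

lemma mag_star (m : ℕ) : mag (star' m) =
    1 + 2 ^ m * (1 - Real.exp (-(1 / (2:ℝ) ^ m))) / (1 + Real.exp (-(1 / (2:ℝ) ^ m))) := by
  classical
  set q := Real.exp (-(1 / (2:ℝ) ^ m)) with hq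
  have hq0 : 0 < q := Real.exp_pos _
  have hq1 : 1 + q ≠ 0 := by positivity
  have hq2 : Real.exp (-(2 / (2:ℝ) ^ m)) = q ^ 2 := by
    rw [hq, ← Real.exp_nat_mul]; congr 1; push_cast; ring
  let W : T → ℝ := fun b => if b = z then 1 - 2 ^ m * q / (1 + q) else 1 / (1 + q)
  have hWz : W z = 1 - 2 ^ m * q / (1 + q) := if_pos rfl
  have hWg : ∀ k, W (g m k) = 1 / (1 + q) := by
    intro k
    apply if_neg
    intro h
    exact z_notMem m (by rw [← h]; exact Finset.mem_image_of_mem _ (Finset.mem_univ _))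
  rw [mag_eq_of_weight (T_posDefinite (star' m) ⟨z, Finset.mem_insert_self _ _⟩) (fun b => W b)]
  · rw [sum_star m W, hWz, Finset.sum_congr rfl fun k _ => hWg k]
    simp only [Finset.sum_const, Finset.card_univ, Fintype.card_fin, nsmul_eq_mul]
    push_cast
    field_simp
    ring
  · rintro ⟨a, ha⟩
    rw [sum_star m (fun b => Real.exp (-dist a b) * W b)]
    have ha' : a = z ∨ ∃ k, g m k = a := by
      simpa [star', leaves] using ha
    rcases ha' with rfl | ⟨k, rfl⟩
    · rw [hWz, dist_self, neg_zero, Real.exp_zero]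
      have : ∀ k ∈ (Finset.univ : Finset (Fin (2 ^ m))), Real.exp (-dist z (g m k)) * W (g m k) =
          q * (1 / (1 + q)) := by
        intro k _
        rw [hWg, dist_comm, dist_g_z]
      rw [Finset.sum_congr rfl this]
      simp only [Finset.sum_const, Finset.card_univ, Fintype.card_fin, nsmul_eq_mul]
      push_cast
      field_simp
      ring
    · rw [hWz, dist_g_z, ← hq]
      have h1 : ∀ l ∈ Finset.univ.erase k, Real.exp (-dist (g m k) (g m l)) * W (g m l) =
          q ^ 2 * (1 / (1 + q)) := by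
        intro l hl
        rw [hWg, dist_g_g m k l (Finset.ne_of_mem_erase hl).symm, hq2]
      rw [← Finset.add_sum_erase _ _ (Finset.mem_univ k), Finset.sum_congr rfl h1, hWg, dist_self,
        neg_zero, Real.exp_zero, Finset.sum_const, Finset.card_erase_of_mem (Finset.mem_univ k),
        Finset.card_univ, Fintype.card_fin, nsmul_eq_mul, Nat.cast_sub Nat.one_le_two_pow]
      push_cast
      field_simp
      ring

lemma mag_star_ge (m : ℕ) : 5 / 4 ≤ mag (star' m) := by
  rw [mag_star]
  set a : ℝ := 1 / (2:ℝ) ^ m with ha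
  have h2m : (1:ℝ) ≤ 2 ^ m := one_le_pow₀ (by norm_num)
  have ha0 : 0 < a := by positivity
  have ha1 : a ≤ 1 := by rw [ha, div_le_one (by positivity)]; exact h2m
  have hma : (2:ℝ) ^ m * a = 1 := by rw [ha]; field_simp
  have h1 : Real.exp (-a) ≤ 1 - a / 2 := by
    have h3 : a + 1 ≤ Real.exp a := Real.add_one_le_exp a
    have h4 : Real.exp (-a) * Real.exp a = 1 := by rw [← Real.exp_add]; simp
    have h5 : 0 < Real.exp (-a) := Real.exp_pos _
    have h6 : Real.exp (-a) * (a + 1) ≤ 1 :=
      (mul_le_mul_of_nonneg_left h3 h5.le).trans_eq h4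
    have h7 : 1 ≤ (1 - a / 2) * (a + 1) := by nlinarith
    have h8 : Real.exp (-a) * (a + 1) ≤ (1 - a / 2) * (a + 1) := h6.trans h7
    exact le_of_mul_le_mul_right h8 (by positivity)
  have h0 : 0 < Real.exp (-a) := Real.exp_pos _
  have h9 : (1:ℝ) / 4 ≤ 2 ^ m * (1 - Real.exp (-a)) / (1 + Real.exp (-a)) := by
    rw [le_div_iff₀ (by positivity)]
    nlinarith
  linarith

lemma mag_singleton : mag ({z} : Finset T) = 1 := by
  classical
  rw [mag_eq_of_weight (T_posDefinite {z} ⟨z, Finset.mem_singleton_self _⟩) (fun _ => 1)]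
  · simp
  · rintro ⟨a, ha⟩
    rw [Finset.mem_singleton] at ha
    subst ha
    rw [Finset.sum_coe_sort ({z} : Finset T) (fun b => Real.exp (-dist z b) * 1)]
    simp

lemma hausdorff_star (m : ℕ) :
    Metric.hausdorffDist (({z} : Finset T) : Set T) (star' m : Set T) ≤ (1/2) ^ m := by
  classical
  refine Metric.hausdorffDist_le_of_mem_dist (by positivity) ?_ ?_
  · intro x hx
    rw [Finset.coe_singleton, Set.mem_singleton_iff] at hx
    subst hx
    exact ⟨z, by simp [star'], by rw [dist_self]; positivity⟩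
  · intro x hx
    refine ⟨z, by simp, ?_⟩
    have ha' : x = z ∨ ∃ k, g m k = x := by
      simpa [star', leaves] using hx
    rcases ha' with rfl | ⟨k, rfl⟩
    · rw [dist_self]; positivity
    · rw [dist_g_z, one_div, one_div, inv_pow]

lemma not_finContinuous : ¬ MagFinContinuous T := by
  classical
  intro h
  obtain ⟨δ, hδ, h1⟩ := h {z} ⟨z, Finset.mem_singleton_self _⟩ (1/4) (by norm_num)
  obtain ⟨m, hm⟩ := exists_pow_lt_of_lt_one hδ (by norm_num : (1/2 : ℝ) < 1)
  have h2 := h1 (star' m) ⟨z, Finset.mem_insert_self _ _⟩ ((hausdorff_star m).trans_lt hm)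
  have h3 := mag_star_ge m
  rw [mag_singleton, abs_lt] at h2
  linarith [h2.1]

lemma magSet_singleton : magSet ({z} : Set T) = 1 := by
  apply le_antisymm
  · unfold magSet
    refine iSup_le fun A => ?_
    have : A.1 = {z} := by
      rw [← Finset.coe_inj, Finset.coe_singleton]
      exact Set.Nonempty.subset_singleton_iff (by exact_mod_cast A.2.1) |>.mp A.2.2
    rw [this, mag_singleton]
    simp
  · have := le_magSet (K := ({z} : Set T)) (A := {z}) ⟨z, Finset.mem_singleton_self _⟩ (by simp)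
    rw [mag_singleton] at this
    exact_mod_cast this

lemma not_cmpContinuous : ¬ MagCmpContinuous T := by
  classical
  intro h
  let K0 : NonemptyCompacts T := ⟨⟨{z}, isCompact_singleton⟩, ⟨z, rfl⟩⟩
  have h1 := Metric.continuous_iff.mp h K0 (1/4) (by norm_num)
  obtain ⟨δ, hδ, h2⟩ := h1
  obtain ⟨m, hm⟩ := exists_pow_lt_of_lt_one hδ (by norm_num : (1/2 : ℝ) < 1)
  let K : NonemptyCompacts T := ⟨⟨(star' m : Set T), (star' m).finite_toSet.isCompact⟩,
    ⟨z, Finset.mem_insert_self _ _⟩⟩
  have h3 : dist K K0 < δ := by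
    rw [dist_comm]
    refine lt_of_le_of_lt ?_ hm
    have := hausdorff_star m
    rw [Finset.coe_singleton] at this
    exact this
  have h4 := h2 K h3
  have h5 : magSet (K0 : Set T) = 1 := magSet_singleton
  have h6 : ((mag (star' m) : ℝ) : EReal) ≤ magSet (K : Set T) :=
    le_magSet ⟨z, Finset.mem_insert_self _ _⟩ (subset_refl _)
  have h7 : magSet (K : Set T) ≤ (Real.exp (1/2) : ℝ) := magSet_le _
  rw [h5] at h4
  have h8 : magSet (K : Set T) ≠ ⊤ := ne_top_of_le_ne_top (EReal.coe_ne_top _) h7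
  have h9 : magSet (K : Set T) ≠ ⊥ := ne_bot_of_le_ne_bot (EReal.coe_ne_bot _) h6
  have h10 : mag (star' m) ≤ (magSet (K : Set T)).toReal := by
    have := EReal.toReal_le_toReal h6 (EReal.coe_ne_bot _) h8
    simpa using this
  have h11 := mag_star_ge m
  rw [EReal.toReal_one, Real.dist_eq, abs_lt] at h4
  linarith [h4.2]

/-- There is a compact subspace `T` of `L₁([0,1])` that is tractable and such that magnitude is
discontinuous both on the nonempty finite subsets and on the nonempty compact subsets of `T`. -/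
theorem result : ∃ T : Set (Lp ℝ 1 (volume.restrict (Icc (0:ℝ) 1))), IsCompact T ∧ Tractable T ∧
    ¬ MagFinContinuous T ∧ ¬ MagCmpContinuous T :=
  ⟨T, T_compact, T_tractable, not_finContinuous, not_cmpContinuous⟩

end Pool.Agent.Results.MP_17ecd9_gt.Discontinuous
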